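import Mathlib
import Pool.Agent.TH648.EN.Smooth
import Pool.Agent.TH885.NW.Final
import Pool.Agent.TH885.NW.Exp2
import Pool.Agent.H248R6.NearAll

set_option autoImplicit false

/-!
# General points of one multiplicity: every system is nonspecial, and the general member is smooth

Let `P` be `n` general points of the complex projective plane and `m ≥ 1`.

If `n ≥ 37`, then in EVERY degree `d` the system `|d H - m ∑ E i|` is nonspecial, and if
`n * (m + 1).choose 2 + m < (d + 2).choose 2`, then all systems `|d H - ∑ w i E i|` with `w i ≤ m`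
are nonspecial and have smooth general members. If `m ≥ n / 4`, then every `|d H - m ∑ E i|` which
is not empty has a smooth general member, except possibly if `|2 d + 3 - √n (2 m + 1)| < 4 / √n`
(at most one degree `d` for every `m`).

For `10 ≤ n ≤ 36` the same holds in all degrees with `|2 d + 3 - √n (2 m + 1)| ≥ ε`, if
`2 min (√n - 3) (2 / 3 + 9 / (4 √n)) < ε` and `4 / √n ≤ ε ≤ 2 √n - 4`.

The points are all those outside one hypersurface defined over the rationals.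
-/

namespace Pool.Agent.Results.MP_0421d9_ag.AllNumbersExactSmooth

open Pool.Agent.H248R5 Pool.Agent.H248R6

theorem gap {n m d : ℕ} {ε : ℝ} (hε : 0 < ε) (hn2 : 4 / ε ≤ Real.sqrt n)
    (hn3 : 2 + ε / 2 ≤ Real.sqrt n)
    (hm : Real.sqrt n ≤ ε * m) (hx : ε ≤ |2 * (d : ℝ) + 3 - Real.sqrt n * (2 * m + 1)|)
    (hd : n * (m + 1).choose 2 < (d + 2).choose 2) :
    n * (m + 1).choose 2 + m < (d + 2).choose 2 := by
  by_contra hcon
  have e1 := two_choose m
  have e2 := two_choose (d + 1)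
  have e3 : d + 1 + 1 = d + 2 := rfl
  rw [e3] at e2
  have e4 : 2 * (n * (m + 1).choose 2) = n * ((m + 1) * m) := by
    rw [← e1]
    ring
  have e5 : n * ((m + 1) * m) + 2 ≤ (d + 2) * (d + 1) := by omega
  have e6 : (d + 2) * (d + 1) ≤ n * ((m + 1) * m) + 2 * m := by omega
  have e5' : (n : ℝ) * ((m + 1) * m) + 2 ≤ (d + 2) * (d + 1) := by exact_mod_cast e5
  have e6' : ((d : ℝ) + 2) * (d + 1) ≤ n * ((m + 1) * m) + 2 * m := by exact_mod_cast e6
  have hs : Real.sqrt n * Real.sqrt n = n := Real.mul_self_sqrt (Nat.cast_nonneg n)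
  have hs0 : 0 < Real.sqrt n := by linarith
  have hm0 : (0 : ℝ) ≤ m := Nat.cast_nonneg m
  have hd0 : (0 : ℝ) ≤ d := Nat.cast_nonneg d
  have hy : (Real.sqrt n * (2 * m + 1)) ^ 2 = 4 * (n * ((m + 1) * m)) + n := by
    linear_combination (2 * (m : ℝ) + 1) ^ 2 * hs
  have h4 : 4 ≤ Real.sqrt n * ε := by rwa [div_le_iff₀ hε] at hn2
  rcases le_abs.1 hx with h1 | h1
  · have h2 : (Real.sqrt n * (2 * m + 1) + ε) ^ 2 ≤ (2 * (d : ℝ) + 3) ^ 2 := by
      refine pow_le_pow_left₀ (by positivity) (by linarith) 2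
    have h3 : 4 * (2 * (m : ℝ) + 1) ≤ Real.sqrt n * ε * (2 * m + 1) :=
      mul_le_mul_of_nonneg_right h4 (by positivity)
    have h5 : (0 : ℝ) ≤ n := Nat.cast_nonneg n
    nlinarith
  · have h2 : (2 * (d : ℝ) + 3) ^ 2 ≤ (Real.sqrt n * (2 * m + 1) - ε) ^ 2 := by
      refine pow_le_pow_left₀ (by positivity) (by linarith) 2
    have h3 : Real.sqrt n * Real.sqrt n ≤ Real.sqrt n * (ε * m) :=
      mul_le_mul_of_nonneg_left hm hs0.le
    have h6 : (ε / 2) * (ε / 2) ≤ Real.sqrt n * Real.sqrt n :=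
      mul_self_le_mul_self (by positivity) (by linarith)
    have h7 : (ε / 2) * ε ≤ Real.sqrt n * ε :=
      mul_le_mul_of_nonneg_right (by linarith) hε.le
    nlinarith

/-- The window hypothesis of the starting library for every `n ≥ 10`. -/
theorem win_of {n : ℕ} (hn : 10 ≤ n) {η : ℝ} (hη : Pool.Agent.TH885.NW.loW n < η) (X : ℝ) :
    WinHyp n X η := by
  intro L _ _ m hm _ w hw
  obtain ⟨h1, h2, h3⟩ := Pool.Agent.TH885.NW.win_len hn
  obtain ⟨F, hF, hF'⟩ := Pool.Agent.TH885.NW.exp_near2 (L := L) hn hm hw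
  refine ⟨F, hF, fun P hP d hd => hF' P hP d ?_⟩
  rcases le_abs.1 hd with h | h
  · left; linarith
  · right; linarith

theorem result {n m : ℕ} (hm : 0 < m) {ε : ℝ} (hε1 : 4 / Real.sqrt n ≤ ε)
    (hε2 : ε ≤ 2 * Real.sqrt n - 4)
    (hn : 37 ≤ n ∨ 10 ≤ n ∧ 2 * min (Real.sqrt n - 3) (2 / 3 + 9 / (4 * Real.sqrt n)) < ε) :
    ∃ F : MvPolynomial (Fin n × Fin 2) ℚ, F ≠ 0 ∧ ∀ P : Fin n → Fin 2 → ℂ,
      MvPolynomial.aeval (fun ij : Fin n × Fin 2 => P ij.1 ij.2) F ≠ 0 →
      ∀ d : ℕ, (37 ≤ n ∨ ε ≤ |2 * (d : ℝ) + 3 - Real.sqrt n * (2 * m + 1)|) →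
        Module.finrank ℂ ↥(forms (fun _ => m) P d) =
          (d + 2).choose 2 - n * (m + 1).choose 2 ∧
        (n * (m + 1).choose 2 + m < (d + 2).choose 2 → ∀ w : Fin n → ℕ, (∀ i, w i ≤ m) →
          Module.finrank ℂ ↥(forms w P d) + ∑ i, (w i + 1).choose 2 = (d + 2).choose 2 ∧
            GeneralMember (forms w P d) (SmoothMember w P)) ∧
        (Real.sqrt n ≤ ε * m → ε ≤ |2 * (d : ℝ) + 3 - Real.sqrt n * (2 * m + 1)| →
          forms (fun _ => m) P d ≠ ⊥ →
          GeneralMember (forms (fun _ => m) P d) (SmoothMember (fun _ => m) P)) := by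
  classical
  have h10 : 10 ≤ n := by
    rcases hn with h | h
    · omega
    · exact h.1
  have hs0 : 0 < Real.sqrt n := by
    rw [Real.sqrt_pos]
    exact_mod_cast (by omega : 0 < n)
  have hε : 0 < ε := lt_of_lt_of_le (by positivity) hε1
  have c2 : 4 / ε ≤ Real.sqrt n := by
    rw [div_le_iff₀ hs0] at hε1
    rw [div_le_iff₀ hε]
    linarith
  have c3 : 2 + ε / 2 ≤ Real.sqrt n := by linarith
  -- the two ranges
  have key : ∃ F : MvPolynomial (Fin n × Fin 2) ℚ, F ≠ 0 ∧ ∀ P : Fin n → Fin 2 → ℂ,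
      MvPolynomial.aeval (fun ij : Fin n × Fin 2 => P ij.1 ij.2) F ≠ 0 →
      ∀ d : ℕ, (37 ≤ n ∨ ε ≤ |2 * (d : ℝ) + 3 - Real.sqrt n * (2 * m + 1)|) →
        Module.finrank ℂ ↥(forms (fun _ => m) P d) =
          (d + 2).choose 2 - n * (m + 1).choose 2 ∧
        (n * (m + 1).choose 2 + m < (d + 2).choose 2 → ∀ w : Fin n → ℕ, (∀ i, w i ≤ m) →
          Module.finrank ℂ ↥(forms w P d) + ∑ i, (w i + 1).choose 2 = (d + 2).choose 2 ∧
            GeneralMember (forms w P d) (SmoothMember w P)) := by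
    rcases le_or_gt 37 n with h37 | h37
    · obtain ⟨F, hF, hF'⟩ := Pool.Agent.TH648.EN.smooth37 (K := ℂ) h37 hm
      refine ⟨F, hF, fun P hP d _ => ?_⟩
      obtain ⟨h1, h2⟩ := hF' P hP
      exact ⟨h1 d, fun hs w hw => h2 w hw d hs⟩
    · have hw : 2 * min (Real.sqrt n - 3) (2 / 3 + 9 / (4 * Real.sqrt n)) < ε := by
        rcases hn with h | h
        · omega
        · exact h.2
      have c1 : WinHyp n (m : ℝ) (ε / 2) := win_of h10 (by
        unfold Pool.Agent.TH885.NW.loW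
        linarith) _
      obtain ⟨F, hF, hF'⟩ := win_all (K := ℂ) c1 hε (by omega) c2 c3 hm le_rfl
      refine ⟨F, hF, fun P hP d hx => ?_⟩
      exact hF' P hP d (hx.resolve_left (by omega))
  obtain ⟨F, hF, hF'⟩ := key
  refine ⟨F, hF, fun P hP d hx => ?_⟩
  obtain ⟨h1, h2⟩ := hF' P hP d hx
  refine ⟨h1, h2, fun hs hx' hne => (h2 (gap hε c2 c3 hs hx' ?_) (fun _ => m) (fun _ => le_rfl)).2⟩
  by_contra hcon
  apply hne
  have hfin := forms_finite (fun _ : Fin n => m) P d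
  refine Submodule.finrank_eq_zero.1 ?_
  rw [h1]
  omega

end Pool.Agent.Results.MP_0421d9_ag.AllNumbersExactSmooth
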