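import Mathlib
import Pool.Agent.TH648.SH.Smooth2

set_option autoImplicit false

/-!
# Smooth general members for arbitrary multiplicities at every number of general points

For every `n`, every vector of multiplicities `m` and general points of the complex projective
plane, in all degrees `d` at once:
* `|d H - ∑ m i E i|` is empty if `√N (3 d - ∑_S m i) < √(9 - |S|) ∑_T m i` for some disjoint sets
  `S`, `T` of points with `|S| ≤ 8` and `N = |T| ≥ 9 - |S|` (or the same with a real `N`);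
* it is nonspecial if `∑ m i + r ^ 2 < r (d + 3)` and `c + r ^ 2 M < r (d + 3)` for some real
  `r ≥ 3`, where `m i ≤ M` for all `i` and `c` is the number of the `i` with `m i = M`;
* it is nonspecial and its general member is smooth on the blow-up if
  `∑ m i + 1 + r ^ 2 < r (d + 3)` and `1 + r ^ 2 (M + 1) < r (d + 3)` for some real `r ≥ 3` and
  some `M` with `m i ≤ M` for all `i`.
-/

namespace Pool.Agent.Results.MP_0421d9_ag.ArbitraryMultiplicitiesSmooth

open Pool.Agent.H248R5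

theorem result {n : ℕ} (m : Fin n → ℕ) :
    ∃ F : MvPolynomial (Fin n × Fin 2) ℂ, F ≠ 0 ∧
      ∀ P : Fin n → Fin 2 → ℂ,
        MvPolynomial.eval (fun ij : Fin n × Fin 2 => P ij.1 ij.2) F ≠ 0 →
        (∀ d : ℕ,
          ((∃ S T : Finset (Fin n), Disjoint S T ∧ S.card ≤ 8 ∧ 9 ≤ S.card + T.card ∧
              √(T.card : ℝ) * (3 * d - ∑ i ∈ S, (m i : ℝ)) <
                √(9 - (S.card : ℝ)) * ∑ i ∈ T, (m i : ℝ)) ∨
            (∃ S : Finset (Fin n), S.card ≤ 8 ∧ ∃ K : ℝ, 9 - (S.card : ℝ) ≤ K ∧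
              ∀ k : ℕ, K * k ≤ 3 * d - ((∑ i ∈ S, m i : ℕ) : ℝ) →
                K * (3 * d - ((∑ i ∈ S, m i : ℕ) : ℝ) - K * k) <
                  (9 - (S.card : ℝ)) * ((∑ i ∈ Finset.univ \ S, (m i - k) : ℕ) : ℝ))) →
          forms m P d = ⊥) ∧
        (∀ (d : ℕ) (r : ℝ) (M : ℕ), 3 ≤ r → (∀ i, m i ≤ M) →
          ∑ i, (m i : ℝ) + r ^ 2 < r * (d + 3) →
          ((Finset.univ.filter fun i => m i = M).card : ℝ) + r ^ 2 * M < r * (d + 3) →
          Module.finrank ℂ ↥(forms m P d) + ∑ i, (m i + 1).choose 2 = (d + 2).choose 2) ∧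
        (∀ (d : ℕ) (r : ℝ) (M : ℕ), 3 ≤ r → (∀ i, m i ≤ M) →
          ∑ i, (m i : ℝ) + 1 + r ^ 2 < r * (d + 3) →
          1 + r ^ 2 * (M + 1) < r * (d + 3) →
          Module.finrank ℂ ↥(forms m P d) + ∑ i, (m i + 1).choose 2 = (d + 2).choose 2 ∧
            GeneralMember (forms m P d) (SmoothMember m P)) := by
  obtain ⟨F, hF, hF'⟩ := TH648.SH.smooth_all m
  refine ⟨F, hF, fun P hP => ?_⟩
  obtain ⟨g1, g2, g3⟩ := hF' P hP
  refine ⟨fun d hd => ?_, fun d r M h1 h2 h3 h4 => ?_, fun d r M h1 h2 h3 h4 => ?_⟩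
  · rcases hd with ⟨S, T, h1, h2, h3, h4⟩ | h
    · exact g1 d (TH648.SH.above_of_sets h1 h2 h3 h4)
    · exact g1 d h
  · exact g2 d (TH648.SH.below_of_max h1 h2 h3 h4)
  · have h5 : TH648.SH.BelowS m d := ⟨r, M, h1, h2, h3, h4⟩
    exact ⟨g2 d (TH648.SH.BelowS.below h5), g3 d h5⟩

end Pool.Agent.Results.MP_0421d9_ag.ArbitraryMultiplicitiesSmooth
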